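import Mathlib

/-!
# Rule 30: how long can the centre column stay one colour?

A black run of the centre column that starts at time `T` has length less than `(3 T + 17) / 5`, and a
white run that starts at time `T` has length less than `T + 3`. Hence the number of white (black)
cells among the first `n` cells of the centre column grows at least logarithmically, with base
`8 / 5` (base `2`).
-/

set_option autoImplicit false

namespace Pool.Agent.Results.MP_ed7968_lc.RunLengths

/-- One step of Rule 30 (`true` is black). -/
def step (f : ℤ → Bool) (i : ℤ) : Bool := Bool.xor (f (i - 1)) (f i || f (i + 1))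

/-- The row at time `t`, started from a single black cell at `0`. -/
def row (t : ℕ) : ℤ → Bool := step^[t] (fun i : ℤ => decide (i = 0))

/-- The centre column. -/
def centre (t : ℕ) : Bool := row t 0

/-- Number of cells of colour `b` among the first `n` cells of the centre column. -/
def count (b : Bool) (n : ℕ) : ℕ := ((Finset.range n).filter (fun t => centre t = b)).card

lemma row_succ (t : ℕ) (i : ℤ) :
    row (t + 1) i = Bool.xor (row t (i - 1)) (row t i || row t (i + 1)) := by
  unfold row
  rw [Function.iterate_succ_apply']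
  rfl

/-- going left: a cell is determined by the cell below its right neighbour and two cells. -/
lemma row_left (t j : ℕ) :
    row t (-((j + 1 : ℕ) : ℤ)) =
      Bool.xor (row (t + 1) (-(j : ℤ))) (row t (-(j : ℤ)) || row t (-(j : ℤ) + 1)) := by
  have h := row_succ t (-(j : ℤ))
  have e : (-(j : ℤ) - 1) = -((j + 1 : ℕ) : ℤ) := by push_cast; ring
  rw [e] at h
  rw [h]
  cases row t (-((j + 1 : ℕ) : ℤ)) <;> cases row t (-(j : ℤ)) <;> cases row t (-(j : ℤ) + 1) <;> rfl

lemma row_left' (t j : ℕ) :
    row t (-((j + 2 : ℕ) : ℤ)) =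
      Bool.xor (row (t + 1) (-((j + 1 : ℕ) : ℤ)))
        (row t (-((j + 1 : ℕ) : ℤ)) || row t (-(j : ℤ))) := by
  have h := row_left t (j + 1)
  have e : (-((j + 1 : ℕ) : ℤ) + 1) = -(j : ℤ) := by push_cast; ring
  rw [e] at h
  exact h

/-- outside the light cone -/
lemma outside (t : ℕ) : ∀ i : ℤ, i < -(t : ℤ) → row t i = false := by
  induction t with
  | zero =>
    intro i hi
    have : i ≠ 0 := by simp at hi; omega
    simp [row, this]
  | succ t ih =>
    intro i hi
    push_cast at hi
    rw [row_succ, ih (i - 1) (by omega), ih i (by omega), ih (i + 1) (by omega)]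
    rfl

/-- the boundary of the light cone is black -/
lemma edge (t : ℕ) : row t (-(t : ℤ)) = true := by
  induction t with
  | zero => simp [row]
  | succ t ih =>
    rw [row_succ, outside t _ (by push_cast; omega), outside t _ (by push_cast; omega)]
    have e : (-((t + 1 : ℕ) : ℤ) + 1) = -(t : ℤ) := by push_cast; ring
    rw [e, ih]
    rfl

lemma outside' (t j : ℕ) (h : t < j) : row t (-(j : ℤ)) = false :=
  outside t _ (by omega)

/-- `alt j` : the alternating pattern, black at even positions. -/
def alt (j : ℕ) : Bool := decide (j % 2 = 0)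

lemma alt_two (j : ℕ) : alt (j + 2) = alt j := by
  unfold alt; simp

lemma alt_succ (j : ℕ) : alt (j + 1) = !alt j := by
  unfold alt
  rcases Nat.mod_two_eq_zero_or_one j with h | h <;> simp [h, Nat.add_mod]

/-- A black run of the centre column fixes an alternating triangle to its left. -/
lemma black_triangle (T L : ℕ) (h : ∀ s, T ≤ s → s < T + L → centre s = true) :
    ∀ j s, T ≤ s → s + j < T + L → row s (-(j : ℤ)) = alt j := by
  intro j
  induction j using Nat.strong_induction_on with
  | _ j ih =>
    intro s hs hj
    rcases j with _ | j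
    · have := h s hs (by omega)
      simpa [centre, alt] using this
    rcases j with _ | j
    · have h0 := h s hs (by omega)
      have h1 := h (s + 1) (by omega) (by omega)
      have h2 := row_left s 0
      unfold centre at h0 h1
      simp only [Nat.cast_zero, neg_zero] at h2
      rw [h0, h1] at h2
      rw [h2]
      simp [alt]
    · rw [row_left', ih (j + 1) (by omega) (s + 1) (by omega) (by omega),
        ih (j + 1) (by omega) s hs (by omega), ih j (by omega) s hs (by omega),
        alt_two, alt_succ]
      cases alt j <;> rfl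

/-- Backward rigidity of the alternating pattern. -/
lemma back (s E M : ℕ) (hE : E % 2 = 0)
    (h : ∀ j, E ≤ j → j ≤ M → row (s + 1) (-(j : ℤ)) = alt j) :
    ∀ j, E + 4 ≤ j → j ≤ M + 1 → row s (-(j : ℤ)) = alt j := by
  have aE : alt E = true := by simp [alt, hE]
  have key : ∀ d, E + 4 + d ≤ M + 1 → row s (-((E + 4 + d : ℕ) : ℤ)) = alt (E + 4 + d) := by
    intro d
    induction d using Nat.strong_induction_on with
    | _ d ih =>
      intro hd
      -- the first five cells
      have y1 := row_left s E
      rw [h E le_rfl (by omega), aE] at y1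
      have y2 := row_left' s E
      rw [h (E + 1) (by omega) (by omega), alt_succ, aE] at y2
      have y3 := row_left' s (E + 1)
      rw [show E + 1 + 1 = E + 2 from rfl, show E + 1 + 2 = E + 3 from rfl] at y3
      rw [h (E + 2) (by omega) (by omega), alt_two, aE] at y3
      have y4 := row_left' s (E + 2)
      rw [show E + 2 + 1 = E + 3 from rfl, show E + 2 + 2 = E + 4 from rfl] at y4
      rw [h (E + 3) (by omega) (by omega), show E + 3 = (E + 1) + 2 from rfl, alt_two, alt_succ,
        aE] at y4
      have z4 : row s (-((E + 4 : ℕ) : ℤ)) = true := by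
        rw [y4, show E + 1 + 2 = E + 3 from rfl, y3, y2, y1]
        cases row s (-(E : ℤ)) <;> cases row s (-(E : ℤ) + 1) <;> rfl
      rcases d with _ | d
      · rw [show E + 4 + 0 = E + 4 from rfl, z4, show E + 4 = (E + 2) + 2 from rfl, alt_two, alt_two,
          aE]
      rcases d with _ | d
      · have y5 := row_left' s (E + 3)
        rw [show E + 3 + 1 = E + 4 from rfl, show E + 3 + 2 = E + 5 from rfl] at y5
        rw [h (E + 4) (by omega) (by omega), z4, show E + 4 = (E + 2) + 2 from rfl, alt_two,
          alt_two, aE] at y5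
        rw [show E + 4 + (0 + 1) = E + 5 from rfl, y5, show E + 5 = (E + 4) + 1 from rfl, alt_succ,
          show E + 4 = (E + 2) + 2 from rfl, alt_two, alt_two, aE]
        rfl
      · have r := row_left' s (E + 4 + d)
        rw [h (E + 4 + d + 1) (by omega) (by omega)] at r
        have i1 := ih (d + 1) (by omega) (by omega)
        have i0 := ih d (by omega) (by omega)
        rw [show E + 4 + (d + 1) = E + 4 + d + 1 from rfl] at i1
        rw [show E + 4 + (d + 1 + 1) = E + 4 + d + 2 from rfl, r, i1, i0, alt_two, alt_succ]
        cases alt (E + 4 + d) <;> rfl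
  intro j h1 h2
  obtain ⟨d, rfl⟩ := Nat.exists_eq_add_of_le h1
  exact key d h2

/-- going `k` rows up from a black run -/
lemma back_iter (T L : ℕ) (hL : 1 ≤ L) (h : ∀ s, T ≤ s → s < T + L → centre s = true) :
    ∀ k, k ≤ T → ∀ j, 4 * k ≤ j → j ≤ L - 1 + k → row (T - k) (-(j : ℤ)) = alt j := by
  intro k
  induction k with
  | zero =>
    intro _ j _ hj
    exact black_triangle T L h j T le_rfl (by omega)
  | succ k ih =>
    intro hk j h1 h2
    have e : T - k = (T - (k + 1)) + 1 := by omega
    refine back (T - (k + 1)) (4 * k) (L - 1 + k) (by omega) ?_ j (by omega) (by omega)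
    intro j' h1' h2'
    rw [← e]
    exact ih (by omega) j' h1' h2'

/-- black runs are short -/
lemma black_run (T L : ℕ) (hL : 3 * T + 17 ≤ 5 * L) :
    ∃ s, T ≤ s ∧ s < T + L ∧ centre s = false := by
  by_contra hcon
  push Not at hcon
  have h : ∀ s, T ≤ s → s < T + L → centre s = true := by
    intro s h1 h2
    have := hcon s h1 h2
    simpa using this
  set k := (T + 1) / 5 with hk
  have hkT : k ≤ T := by omega
  have H := back_iter T L (by omega) h k hkT
  rcases Nat.mod_two_eq_zero_or_one (T - k + 1) with hp | hp
  · have h1 := H (T - k + 1) (by omega) (by omega)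
    rw [outside' (T - k) (T - k + 1) (by omega)] at h1
    simp [alt, hp] at h1
  · have h1 := H (T - k + 2) (by omega) (by omega)
    rw [outside' (T - k) (T - k + 2) (by omega)] at h1
    have hp2 : (T - k + 2) % 2 = 0 := by omega
    simp [alt, hp2] at h1

/-- pattern to the left of a white run: white up to `a`, then a front, then alternating. -/
def front (a j s : ℕ) : Bool :=
  if j % 2 = 1 then decide (a + 1 ≤ s + j) else decide (j ≠ 0 ∧ s + j = a + 1)

lemma white_triangle (T L a : ℕ) (h : ∀ s, T ≤ s → s < T + L → centre s = false)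
    (ha : ∀ s, T ≤ s → s + 1 < T + L → row s (-((1 : ℕ) : ℤ)) = decide (a ≤ s)) :
    ∀ j s, T ≤ s → s + j < T + L → row s (-(j : ℤ)) = front a j s := by
  intro j
  induction j using Nat.strong_induction_on with
  | _ j ih =>
    intro s hs hj
    rcases j with _ | j
    · have := h s hs (by omega)
      simpa [centre, front] using this
    rcases j with _ | j
    · rw [show (0 + 1) = 1 from rfl, ha s hs (by omega)]
      simp [front]
    · rw [row_left', ih (j + 1) (by omega) (s + 1) (by omega) (by omega),
        ih (j + 1) (by omega) s hs (by omega), ih j (by omega) s hs (by omega)]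
      unfold front
      rcases Nat.mod_two_eq_zero_or_one j with hp | hp
      · have p1 : (j + 1) % 2 = 1 := by omega
        have p2 : ¬ (j + 1 + 1) % 2 = 1 := by omega
        have p0 : ¬ j % 2 = 1 := by omega
        rw [if_pos p1, if_pos p1, if_neg p0, if_neg p2]
        obtain ⟨b1, hb1⟩ : ∃ b, decide (a + 1 ≤ s + 1 + (j + 1)) = b := ⟨_, rfl⟩
        obtain ⟨b2, hb2⟩ : ∃ b, decide (a + 1 ≤ s + (j + 1)) = b := ⟨_, rfl⟩
        obtain ⟨b3, hb3⟩ : ∃ b, decide (j ≠ 0 ∧ s + j = a + 1) = b := ⟨_, rfl⟩
        obtain ⟨b4, hb4⟩ : ∃ b, decide (j + 1 + 1 ≠ 0 ∧ s + (j + 1 + 1) = a + 1) = b := ⟨_, rfl⟩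
        rw [hb1, hb2, hb3, hb4]
        cases b1 <;> cases b2 <;> cases b3 <;> cases b4 <;>
          first
            | rfl
            | (exfalso
               simp only [decide_eq_true_eq, decide_eq_false_iff_not] at hb1 hb2 hb3 hb4
               omega)
      · have p1 : ¬ (j + 1) % 2 = 1 := by omega
        have p2 : (j + 1 + 1) % 2 = 1 := by omega
        rw [if_neg p1, if_neg p1, if_pos hp, if_pos p2]
        obtain ⟨b1, hb1⟩ : ∃ b, decide (j + 1 ≠ 0 ∧ s + 1 + (j + 1) = a + 1) = b := ⟨_, rfl⟩
        obtain ⟨b2, hb2⟩ : ∃ b, decide (j + 1 ≠ 0 ∧ s + (j + 1) = a + 1) = b := ⟨_, rfl⟩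
        obtain ⟨b3, hb3⟩ : ∃ b, decide (a + 1 ≤ s + j) = b := ⟨_, rfl⟩
        obtain ⟨b4, hb4⟩ : ∃ b, decide (a + 1 ≤ s + (j + 1 + 1)) = b := ⟨_, rfl⟩
        rw [hb1, hb2, hb3, hb4]
        cases b1 <;> cases b2 <;> cases b3 <;> cases b4 <;>
          first
            | rfl
            | (exfalso
               simp only [decide_eq_true_eq, decide_eq_false_iff_not] at hb1 hb2 hb3 hb4
               omega)

/-- white runs are short -/
lemma white_run (T : ℕ) : ∃ s, T ≤ s ∧ s < T + (T + 3) ∧ centre s = true := by
  by_contra hcon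
  push Not at hcon
  have h : ∀ s, T ≤ s → s < T + (T + 3) → centre s = false := by
    intro s h1 h2
    have := hcon s h1 h2
    simpa using this
  rcases Nat.eq_zero_or_pos T with rfl | hT
  · have := h 0 le_rfl (by omega)
    simp [centre, row] at this
  -- column -1 equals column 1 and is monotone
  have m1 : ∀ s, T ≤ s → s + 1 < T + (T + 3) → row s (-1) = row s 1 := by
    intro s h1 h2
    have e := row_succ s 0
    have h0 := h s h1 (by omega)
    have h0' := h (s + 1) (by omega) h2
    unfold centre at h0 h0'
    rw [h0, h0'] at e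
    simp only [zero_sub, zero_add, Bool.false_or] at e
    revert e
    cases row s (-1) <;> cases row s 1 <;> simp
  have m2 : ∀ s, T ≤ s → s < T + (T + 3) → row s 1 = true → row (s + 1) 1 = true := by
    intro s h1 h2 h3
    have e := row_succ s 1
    have h0 := h s h1 h2
    unfold centre at h0
    rw [show (1 : ℤ) - 1 = 0 from rfl, h0, h3] at e
    rw [e]
    rfl
  -- the front
  obtain ⟨a, ha⟩ : ∃ a, ∀ s, T ≤ s → s + 1 < T + (T + 3) →
      row s (-((1 : ℕ) : ℤ)) = decide (a ≤ s) := by
    by_cases hex : ∃ s, T ≤ s ∧ s + 1 < T + (T + 3) ∧ row s (-1) = true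
    · classical
      refine ⟨Nat.find hex, ?_⟩
      have hsp := Nat.find_spec hex
      set a := Nat.find hex with hadef
      have up : ∀ d, a + d + 1 < T + (T + 3) → row (a + d) (-1) = true := by
        intro d
        induction d with
        | zero => intro _; exact hsp.2.2
        | succ d ih =>
          intro hd
          have i0 := ih (by omega)
          rw [m1 (a + d) (by omega) (by omega)] at i0
          have i1 := m2 (a + d) (by omega) (by omega) i0
          rw [m1 (a + (d + 1)) (by omega) (by omega)]
          exact i1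
      intro s h1 h2
      by_cases q : a ≤ s
      · obtain ⟨d, rfl⟩ := Nat.exists_eq_add_of_le q
        have := up d h2
        simpa [q] using this
      · have hn := Nat.find_min hex (m := s) (by omega)
        have : row s (-1) = false := by
          by_contra hb
          exact hn ⟨h1, h2, by simpa using hb⟩
        simpa [q] using this
    · refine ⟨T + (T + 3), ?_⟩
      intro s h1 h2
      have : row s (-1) = false := by
        by_contra hb
        exact hex ⟨s, h1, h2, by simpa using hb⟩
      have q : ¬ T + (T + 3) ≤ s := by omega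
      simp only [Nat.cast_one, this]
      exact (decide_eq_false q).symm
  have H := white_triangle T (T + 3) a h ha
  have e1 := H T T le_rfl (by omega)
  rw [edge T] at e1
  unfold front at e1
  rcases Nat.mod_two_eq_zero_or_one T with hp | hp
  · have p1 : ¬ T % 2 = 1 := by omega
    rw [if_neg p1] at e1
    have e1' := of_decide_eq_true e1.symm
    have e2 := H (T + 1) T le_rfl (by omega)
    rw [outside' T (T + 1) (by omega)] at e2
    unfold front at e2
    rw [if_pos (by omega)] at e2
    have e2' := of_decide_eq_false e2.symm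
    omega
  · rw [if_pos hp] at e1
    have e1' := of_decide_eq_true e1.symm
    have e2 := H (T + 2) T le_rfl (by omega)
    rw [outside' T (T + 2) (by omega)] at e2
    unfold front at e2
    rw [if_pos (by omega)] at e2
    have e2' := of_decide_eq_false e2.symm
    omega

lemma count_mono (b : Bool) {m n : ℕ} (h : m ≤ n) : count b m ≤ count b n := by
  unfold count
  apply Finset.card_le_card
  intro x hx
  simp only [Finset.mem_filter, Finset.mem_range] at hx ⊢
  exact ⟨by omega, hx.2⟩

lemma count_lt (b : Bool) {m n s : ℕ} (h1 : m ≤ s) (h2 : s < n) (h3 : centre s = b) :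
    count b m + 1 ≤ count b n := by
  unfold count
  have hs : s ∉ (Finset.range m).filter (fun t => centre t = b) := by
    simp only [Finset.mem_filter, Finset.mem_range]
    omega
  rw [← Finset.card_insert_of_notMem hs]
  apply Finset.card_le_card
  intro x hx
  simp only [Finset.mem_insert, Finset.mem_filter, Finset.mem_range] at hx ⊢
  rcases hx with rfl | hx
  · exact ⟨h2, h3⟩
  · exact ⟨by omega, hx.2⟩

/-- black cells -/
lemma black_count (k : ℕ) : ∀ n, 2 ^ (k + 1) ≤ n + 3 → k ≤ count true n := by
  induction k with
  | zero => intro n _; exact Nat.zero_le _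
  | succ k ih =>
    intro n hn
    have hpos : 2 ≤ 2 ^ (k + 1) := by
      rw [pow_succ]; have := Nat.one_le_two_pow (n := k); omega
    have hdouble : 2 ^ (k + 1 + 1) = 2 * 2 ^ (k + 1) := by rw [pow_succ]; ring
    rcases Nat.lt_or_ge (2 ^ (k + 1)) 3 with h3 | h3
    · have e : 2 ^ (k + 1) = 2 := by omega
      obtain ⟨s, _, hs2, hs3⟩ := white_run 0
      have hk := ih 0 (by omega)
      have h0 : centre 0 = true := by simp [centre, row]
      have := count_lt true (Nat.zero_le 0) (show 0 < n by omega) h0
      omega
    · obtain ⟨s, hs1, hs2, hs3⟩ := white_run (2 ^ (k + 1) - 3)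
      have hk := ih (2 ^ (k + 1) - 3) (by omega)
      have := count_lt true hs1 (show s < n by omega) hs3
      omega

/-- white cells -/
lemma white_count (k : ℕ) : ∀ n, 10 * 8 ^ k ≤ (n + 10) * 5 ^ k → k ≤ count false n := by
  induction k with
  | zero => intro n _; exact Nat.zero_le _
  | succ k ih =>
    intro n hn
    have h5 : 0 < 5 ^ k := by positivity
    have h85 : 5 ^ k ≤ 8 ^ k := Nat.pow_le_pow_left (by norm_num) k
    have hn' : 80 * 8 ^ k ≤ (5 * (n + 10)) * 5 ^ k := by
      have e1 : 10 * 8 ^ (k + 1) = 80 * 8 ^ k := by ring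
      have e2 : (n + 10) * 5 ^ (k + 1) = (5 * (n + 10)) * 5 ^ k := by ring
      omega
    have hn6 : 16 ≤ n + 10 := by
      have : 80 * 5 ^ k ≤ (5 * (n + 10)) * 5 ^ k := by omega
      have := Nat.le_of_mul_le_mul_right this h5
      omega
    obtain ⟨s, hs1, hs2, hs3⟩ := black_run ((5 * n - 21) / 8) ((3 * ((5 * n - 21) / 8) + 21) / 5)
      (by omega)
    have hT : 10 * 8 ^ k ≤ ((5 * n - 21) / 8 + 10) * 5 ^ k := by
      have h1 : (5 * (n + 10)) * 5 ^ k ≤ (8 * ((5 * n - 21) / 8 + 10)) * 5 ^ k :=
        Nat.mul_le_mul_right _ (by omega)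
      have h2 : (8 * ((5 * n - 21) / 8 + 10)) * 5 ^ k = 8 * (((5 * n - 21) / 8 + 10) * 5 ^ k) := by
        ring
      omega
    have hk := ih _ hT
    have := count_lt false hs1 (show s < n by omega) hs3
    omega

/-- Black runs of the centre column starting at `T` have length less than `(3 T + 17) / 5`, white
runs length less than `T + 3`; the number of black cells among the first `n` exceeds
`log_2 (n + 3) - 2` and the number of white cells exceeds `log_{8/5} ((n + 10) / 10) - 1`. -/
theorem result :
    (∀ T L : ℕ, (∀ s, T ≤ s → s < T + L → centre s = true) → 5 * L < 3 * T + 17) ∧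
    (∀ T L : ℕ, (∀ s, T ≤ s → s < T + L → centre s = false) → L < T + 3) ∧
    (∀ n : ℕ, n + 3 < 2 ^ (count true n + 2)) ∧
    (∀ n : ℕ, (n + 10) * 5 ^ (count false n + 1) < 10 * 8 ^ (count false n + 1)) := by
  refine ⟨?_, ?_, ?_, ?_⟩
  · intro T L h
    by_contra hcon
    obtain ⟨s, h1, h2, h3⟩ := black_run T L (by omega)
    rw [h s h1 h2] at h3
    exact Bool.noConfusion h3
  · intro T L h
    by_contra hcon
    obtain ⟨s, h1, h2, h3⟩ := white_run T
    rw [h s h1 (by omega)] at h3
    exact Bool.noConfusion h3
  · intro n
    by_contra hcon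
    have := black_count (count true n + 1) n (by
      have : 2 ^ (count true n + 1 + 1) = 2 ^ (count true n + 2) := rfl
      omega)
    omega
  · intro n
    by_contra hcon
    have := white_count (count false n + 1) n (by omega)
    omega

end Pool.Agent.Results.MP_ed7968_lc.RunLengths
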